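import Pool.Agent.Lib.Balls45.Two
import Pool.Agent.Lib.Balls.Bad

set_option autoImplicit false

namespace Pool.Agent.Balls45

open Pool.Agent.Balls (Bad)

theorem bad_cross {τ K : ℝ} {A B C : ℝ × ℝ} (hτ : 0 ≤ τ) (h : Bad τ K A B C) :
    |cr (A - B) (C - B)| ≤ τ * (nm (A - B) + nm (C - B)) := by
  obtain ⟨l, h0, h1, h2, h3, -⟩ := h
  set d1 := B.1 - ((1 - l) * A.1 + l * C.1) with hd1
  set d2 := B.2 - ((1 - l) * A.2 + l * C.2) with hd2
  have e : cr (A - B) (C - B) = -((A - C).1 * d2 - (A - C).2 * d1) := by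
    rw [hd1, hd2]; unfold cr; simp; ring
  rw [e, abs_neg]
  have h4 := abs_sub ((A - C).1 * d2) ((A - C).2 * d1)
  rw [abs_mul, abs_mul] at h4
  have h5 := mul_le_mul_of_nonneg_left h3 (abs_nonneg (A - C).1)
  have h6 := mul_le_mul_of_nonneg_left h2 (abs_nonneg (A - C).2)
  have h7 : nm (A - C) ≤ nm (A - B) + nm (C - B) := by
    have h8 := nm_sub (A - B) (C - B)
    have : (A - B) - (C - B) = A - C := by abel
    rwa [this] at h8
  have h8 := mul_le_mul_of_nonneg_left h7 hτ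
  have h9 : τ * nm (A - C) = |(A - C).1| * τ + |(A - C).2| * τ := by unfold nm; ring
  linarith

theorem bad_prod {τ K M : ℝ} {A B C : ℝ × ℝ} (hτ : 0 ≤ τ) (h : Bad τ K A B C)
    (hE : nm (A - C) ≤ 2 * M) :
    nm (A - B) * nm (C - B) ≤ 2 * K + 4 * τ * M + 4 * τ ^ 2 := by
  obtain ⟨l, h0, h1, h2, h3, h4⟩ := h
  set d : ℝ × ℝ := (B.1 - ((1 - l) * A.1 + l * C.1), B.2 - ((1 - l) * A.2 + l * C.2)) with hd
  have hdn : nm d ≤ 2 * τ := by
    unfold nm; rw [hd]; linarith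
  have e1 : A - B = l • (A - C) - d := by
    rw [hd]; ext <;> simp <;> ring
  have e2 : C - B = (-(1 - l)) • (A - C) - d := by
    rw [hd]; ext <;> simp <;> ring
  have n1 := nm_sub (l • (A - C)) d
  have n2 := nm_sub ((-(1 - l)) • (A - C)) d
  rw [← e1, nm_smul, abs_of_nonneg h0] at n1
  rw [← e2, nm_smul, abs_neg, abs_of_nonneg (by linarith : 0 ≤ 1 - l)] at n2
  set E := nm (A - C) with hEdef
  have hE0 : 0 ≤ E := nm_nonneg _
  have m1 : nm (A - B) ≤ l * E + 2 * τ := by linarith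
  have m2 : nm (C - B) ≤ (1 - l) * E + 2 * τ := by linarith
  have m3 : nm (A - B) * nm (C - B) ≤ (l * E + 2 * τ) * ((1 - l) * E + 2 * τ) :=
    mul_le_mul m1 m2 (nm_nonneg _) (by positivity)
  have m4 : (l * E + 2 * τ) * ((1 - l) * E + 2 * τ) =
      l * (1 - l) * E ^ 2 + 2 * τ * E + 4 * τ ^ 2 := by ring
  have m5 : E ^ 2 ≤ 2 * ((A.1 - C.1) ^ 2 + (A.2 - C.2) ^ 2) := by
    have := dt_self_ge (A - C)
    rw [← hEdef] at this
    have e : dt (A - C) (A - C) = (A.1 - C.1) ^ 2 + (A.2 - C.2) ^ 2 := by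
      unfold dt; simp; ring
    rwa [e] at this
  have m6 : l * (1 - l) * E ^ 2 ≤ l * (1 - l) * (2 * ((A.1 - C.1) ^ 2 + (A.2 - C.2) ^ 2)) :=
    mul_le_mul_of_nonneg_left m5 (mul_nonneg h0 (by linarith))
  have m7 : τ * E ≤ τ * (2 * M) := mul_le_mul_of_nonneg_left hE hτ
  linarith

/-- cast to the plane -/
def ir (u : ℤ × ℤ) : ℝ × ℝ := ((u.1 : ℝ), (u.2 : ℝ))

theorem nm_ir_ge {v : ℤ × ℤ} (hv : v ≠ 0) : 1 ≤ nm (ir v) := by
  unfold nm ir
  have : (1 : ℤ) ≤ |v.1| + |v.2| := by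
    by_contra h
    have h1 := abs_nonneg v.1
    have h2 := abs_nonneg v.2
    have h3 : v.1 = 0 := by rw [← abs_eq_zero]; omega
    have h4 : v.2 = 0 := by rw [← abs_eq_zero]; omega
    exact hv (Prod.ext h3 h4)
  show (1 : ℝ) ≤ |(v.1 : ℝ)| + |(v.2 : ℝ)|
  exact_mod_cast this

theorem ell_ir {v : ℤ × ℤ} (hv : v ≠ 0) : 1 ≤ 3 / 2 * nm (ir v) * |ell (ir v)| := by
  have h2 : (√2 : ℝ) * √2 = 2 := Real.mul_self_sqrt (by norm_num)
  have e : ell (ir v) * ((v.1 : ℝ) + √2 * (v.2 : ℝ)) = ((v.1 ^ 2 - 2 * v.2 ^ 2 : ℤ) : ℝ) := by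
    unfold ell ir
    push_cast
    linear_combination (-(v.2 : ℝ) ^ 2) * h2
  have hne : v.1 ^ 2 - 2 * v.2 ^ 2 ≠ 0 := by
    intro h0
    have h1 : v.1 ^ 2 = 2 * v.2 ^ 2 := by linarith
    by_cases hv2 : v.2 = 0
    · rw [hv2] at h1
      have : v.1 = 0 := by simpa using h1
      exact hv (Prod.ext this hv2)
    · have hR : ((v.1 : ℝ) / (v.2 : ℝ)) ^ 2 = 2 := by
        have hv2' : (v.2 : ℝ) ≠ 0 := by exact_mod_cast hv2
        rw [div_pow, div_eq_iff (pow_ne_zero 2 hv2')]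
        exact_mod_cast h1
      have hs : √2 = |(v.1 : ℝ) / (v.2 : ℝ)| := by
        rw [← hR, Real.sqrt_sq_eq_abs]
      apply irrational_sqrt_two
      refine ⟨|(v.1 : ℚ) / (v.2 : ℚ)|, ?_⟩
      rw [hs]
      push_cast
      rfl
  have h1 : (1 : ℝ) ≤ |((v.1 ^ 2 - 2 * v.2 ^ 2 : ℤ) : ℝ)| := by
    have : (1 : ℤ) ≤ |v.1 ^ 2 - 2 * v.2 ^ 2| := Int.one_le_abs hne
    exact_mod_cast this
  rw [← e, abs_mul] at h1
  have h3 : |(v.1 : ℝ) + √2 * (v.2 : ℝ)| ≤ 3 / 2 * nm (ir v) := by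
    unfold nm ir
    have h4 := abs_add_le (v.1 : ℝ) (√2 * (v.2 : ℝ))
    rw [abs_mul, abs_of_nonneg (Real.sqrt_nonneg 2)] at h4
    have h5 := mul_le_mul_of_nonneg_right sqrt2_le (abs_nonneg (v.2 : ℝ))
    have h6 := abs_nonneg (v.1 : ℝ)
    simp only
    linarith
  have h4 := mul_le_mul_of_nonneg_left h3 (abs_nonneg (ell (ir v)))
  linarith

theorem exists_step {u w : ℤ × ℤ} (hu : u ≠ 0) (h : u.1 * w.2 = u.2 * w.1) :
    ∃ v : ℤ × ℤ, ∃ i j : ℤ, v ≠ 0 ∧ u = (i * v.1, i * v.2) ∧ w = (j * v.1, j * v.2) := by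
  have hg : 0 < Int.gcd u.1 u.2 := by
    rw [Nat.pos_iff_ne_zero]
    intro h0
    rw [Int.gcd_eq_zero_iff] at h0
    exact hu (Prod.ext h0.1 h0.2)
  obtain ⟨x, y, hxy, hx, hy⟩ := Int.exists_gcd_one hg
  set g : ℤ := (Int.gcd u.1 u.2 : ℤ) with hgdef
  have hg0 : g ≠ 0 := by
    rw [hgdef]
    exact_mod_cast hg.ne'
  obtain ⟨s, t, hst⟩ := Int.isCoprime_iff_gcd_eq_one.mpr hxy
  have hc : x * w.2 = y * w.1 := by
    have : g * (x * w.2) = g * (y * w.1) := by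
      rw [hx, hy] at h
      linarith
    exact mul_left_cancel₀ hg0 this
  refine ⟨(x, y), g, s * w.1 + t * w.2, ?_, ?_, ?_⟩
  · intro h0
    have h1 : x = 0 := congrArg Prod.fst h0
    have h2 : y = 0 := congrArg Prod.snd h0
    rw [h1, h2] at hst
    simp at hst
  · apply Prod.ext
    · simp only; rw [hx]; ring
    · simp only; rw [hy]; ring
  · apply Prod.ext
    · simp only
      linear_combination (-w.1) * hst - t * hc
    · simp only
      linear_combination (-w.2) * hst + s * hc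

end Pool.Agent.Balls45
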