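import Pool.Agent.Lib.Balls45.Vec

set_option autoImplicit false

namespace Pool.Agent.Balls45

theorem am {a b A B : ℝ} (h1 : |a| ≤ A) (h2 : |b| ≤ B) : |a * b| ≤ A * B := by
  rw [abs_mul]
  exact mul_le_mul h1 h2 (abs_nonneg _) ((abs_nonneg _).trans h1)

/-- the core box -/
def Box (N : ℝ) (q : ℝ × ℝ) : Prop := |q.1| ≤ N ∧ |q.2| ≤ N

theorem box_nm {N : ℝ} {q : ℝ × ℝ} (h : Box N q) : nm q ≤ 2 * N := by
  unfold nm; linarith [h.1, h.2]

theorem box_ell {N : ℝ} {q : ℝ × ℝ} (h : Box N q) : |ell q| ≤ 5 / 2 * N := by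
  unfold ell
  have h1 := abs_sub q.1 (√2 * q.2)
  rw [abs_mul, abs_of_nonneg (Real.sqrt_nonneg 2)] at h1
  have h2 : √2 * |q.2| ≤ 3 / 2 * N := mul_le_mul sqrt2_le h.2 (abs_nonneg _) (by norm_num)
  linarith [h.1]

structure Par (N β γ : ℝ) : Prop where
  hN : 1 ≤ N
  hβ : β = 1 / (100 * N ^ 2)
  hγ : γ = β / (1000 * N)

variable {N β γ : ℝ}

theorem Par.bpos (P : Par N β γ) : 0 < β := by
  rw [P.hβ]; have := P.hN; positivity

theorem Par.ble (P : Par N β γ) : β ≤ 1 / 100 := by
  rw [P.hβ]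
  apply one_div_le_one_div_of_le (by norm_num)
  have := P.hN
  nlinarith

theorem Par.bN (P : Par N β γ) : β * N ^ 2 = 1 / 100 := by
  rw [P.hβ]; have := P.hN; field_simp

theorem Par.gpos (P : Par N β γ) : 0 < γ := by
  rw [P.hγ]; have := P.hN; have := P.bpos; positivity

theorem Par.gN (P : Par N β γ) : γ * N = β / 1000 := by
  rw [P.hγ]; have := P.hN; field_simp

theorem Par.gell (P : Par N β γ) {q : ℝ × ℝ} (h : Box N q) : |γ * ell q| ≤ β / 400 := by
  rw [abs_mul, abs_of_pos P.gpos]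
  have h1 := mul_le_mul_of_nonneg_left (box_ell h) P.gpos.le
  have := P.gN
  calc γ * |ell q| ≤ γ * (5 / 2 * N) := h1
    _ = 5 / 2 * (γ * N) := by ring
    _ = β / 400 := by rw [this]; ring

theorem Par.gw (P : Par N β γ) (w : ℝ × ℝ) : |γ * ell w| ≤ γ * (3 / 2 * nm w) := by
  rw [abs_mul, abs_of_pos P.gpos]
  exact mul_le_mul_of_nonneg_left (ell_le w) P.gpos.le

/-- bound of the displacement coefficient -/
theorem Par.mu (P : Par N β γ) {q : ℝ × ℝ} (h : Box N q) : |β + γ * ell q| ≤ 401 / 400 * β := by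
  have h1 := abs_add_le β (γ * ell q)
  rw [abs_of_pos P.bpos] at h1
  have := P.gell h
  linarith

theorem par_disp (P : Par N β γ) {q : ℝ × ℝ} (h : Box N q) :
    nm (disp β γ q) ≤ 401 / 400 * β * (2 * N) := by
  unfold disp
  rw [nm_smul, nm_J]
  exact mul_le_mul (P.mu h) (box_nm h) (nm_nonneg _) (by have := P.bpos; positivity)

/-- Lipschitz bound inside one cell -/
theorem Par.lip_same (P : Par N β γ) {b u : ℝ × ℝ} (hb : Box N b) (hbu : Box N (b + u)) :
    nm (disp β γ (b + u) - disp β γ b) ≤ 21 / 10 * β * nm u := by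
  have e : disp β γ (b + u) - disp β γ b =
      (β + γ * ell (b + u)) • J u + (γ * ell u) • J b := by
    have := disp_diff β γ b u
    rw [add_sub_assoc, add_assoc] at this
    exact add_left_cancel this
  rw [e]
  have h1 := nm_add ((β + γ * ell (b + u)) • J u) ((γ * ell u) • J b)
  rw [nm_smul, nm_smul, nm_J, nm_J] at h1
  have h2 := mul_le_mul_of_nonneg_right (P.mu hbu) (nm_nonneg u)
  have h3 := mul_le_mul (P.gw u) (box_nm hb) (nm_nonneg _)
    (by have := P.gpos; have := nm_nonneg u; positivity)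
  have h4 : γ * (3 / 2 * nm u) * (2 * N) = 3 / 1000 * β * nm u := by
    have := P.gN
    calc γ * (3 / 2 * nm u) * (2 * N) = 3 * (γ * N) * nm u := by ring
      _ = _ := by rw [this]; ring
  have h5 : 0 ≤ β * nm u := mul_nonneg P.bpos.le (nm_nonneg _)
  nlinarith

/-- Lipschitz bound between different cells -/
theorem Par.lip_diff (P : Par N β γ) {a b u : ℝ × ℝ} (ha : Box N a) (hb : Box N b)
    (hu : 2 * N ≤ nm u) :
    nm (disp β γ a - disp β γ b) ≤ 21 / 10 * β * nm u := by
  have h1 := nm_sub (disp β γ a) (disp β γ b)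
  have h2 := par_disp P ha
  have h3 := par_disp P hb
  have h4 := mul_le_mul_of_nonneg_left hu P.bpos.le
  have h5 : 0 ≤ β * N := mul_nonneg P.bpos.le (by linarith [P.hN])
  nlinarith

/-- lower bound, same cell -/
theorem Par.same (P : Par N β γ) {b v : ℝ × ℝ} (hb : Box N b) (i j : ℝ)
    (hl : 1 ≤ 3 / 2 * nm v * |ell v|) :
    |i| * |j| * |j - i| * (γ * nm v) ≤ 6 * |cr (i • v + disp β γ (b + i • v) - disp β γ b)
      (j • v + disp β γ (b + j • v) - disp β γ b)| := by
  rw [cross_same, abs_mul, abs_mul, abs_mul, abs_mul, abs_mul γ, abs_of_pos P.gpos]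
  have hg := P.gpos
  have hn := nm_nonneg v
  have e1 : |γ * ell v * cr b v| ≤ 1 / 2 * dt v v := by
    have h1 := am (P.gw v) (cr_le b v)
    have h2 : γ * (3 / 2 * nm v) * (nm b * nm v) ≤
        3 / 1000 * β * nm v ^ 2 := by
      have h3 : γ * (3 / 2 * nm v) * (nm b * nm v) ≤
        γ * (3 / 2 * nm v) * (2 * N * nm v) := by
        apply mul_le_mul_of_nonneg_left _ (by positivity)
        exact mul_le_mul_of_nonneg_right (box_nm hb) hn
      have h4 : γ * (3 / 2 * nm v) * (2 * N * nm v) =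
          3 * (γ * N) * nm v ^ 2 := by ring
      rw [h4, P.gN] at h3
      linarith
    have h5 := dt_self_ge v
    have h6 : 3 / 1000 * β * nm v ^ 2 ≤ 1 / 4 * nm v ^ 2 := by
      apply mul_le_mul_of_nonneg_right _ (sq_nonneg _)
      have := P.ble
      linarith
    linarith
  have e2 : 1 / 2 * dt v v ≤ |dt v v + γ * ell v * cr b v| := by
    have h1 := (abs_le.mp e1).1
    have h2 := le_abs_self (dt v v + γ * ell v * cr b v)
    linarith
  have e3 : 1 / 4 * nm v ^ 2 ≤ |dt v v + γ * ell v * cr b v| := by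
    have h5 := dt_self_ge v
    linarith
  have e4 : nm v ≤ 6 * (|ell v| * |dt v v + γ * ell v * cr b v|) := by
    have h1 := mul_le_mul_of_nonneg_left e3 (abs_nonneg (ell v))
    have h2 := mul_le_mul_of_nonneg_left hl hn
    -- nm v ≤ 3/2 nm v^2 |ell v|
    have : nm v ≤ 3 / 2 * (|ell v| * nm v ^ 2) := by
      calc nm v = nm v * 1 := by ring
        _ ≤ _ := h2
        _ = _ := by ring
    linarith
  have e5 : 0 ≤ |i| * |j| * |j - i| * γ := by positivity
  have e6 := mul_le_mul_of_nonneg_left e4 e5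
  calc |i| * |j| * |j - i| * (γ * nm v) = |i| * |j| * |j - i| * γ * nm v := by ring
    _ ≤ _ := e6
    _ = _ := by ring

end Pool.Agent.Balls45
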