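import Pool.Agent.Lib.Balls45.Arith

set_option autoImplicit false

namespace Pool.Agent.Balls45

open Pool.Agent.Balls (Bad)

/-- lattice point with cell `m` and core vector `q` -/
def lat (n : ℕ) (m q : ℤ × ℤ) : ℤ × ℤ :=
  (4 * n * m.1 + 2 * n + q.1, 4 * n * m.2 + 2 * n + q.2)

def IBox (n : ℕ) (q : ℤ × ℤ) : Prop := -(n : ℤ) ≤ q.1 ∧ q.1 < n ∧ -(n : ℤ) ≤ q.2 ∧ q.2 < n

theorem IBox.box {n : ℕ} {q : ℤ × ℤ} (h : IBox n q) : Box (n : ℝ) (ir q) := by
  obtain ⟨h1, h2, h3, h4⟩ := h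
  constructor
  · show |(q.1 : ℝ)| ≤ (n : ℝ)
    have : |q.1| ≤ (n : ℤ) := abs_le.mpr ⟨h1, h2.le⟩
    exact_mod_cast this
  · show |(q.2 : ℝ)| ≤ (n : ℝ)
    have : |q.2| ≤ (n : ℤ) := abs_le.mpr ⟨h3, h4.le⟩
    exact_mod_cast this

/-- position of the point with cell `m` and core vector `q` -/
noncomputable def pos (n : ℕ) (β γ : ℝ) (m q : ℤ × ℤ) : ℝ × ℝ := ir (lat n m q) + disp β γ (ir q)

theorem far_coord (n k d : ℤ) (hn : 0 ≤ n) (hk : k ≠ 0) (hd : |d| ≤ 2 * n) :
    2 * n ≤ |4 * n * k + d| := by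
  rw [abs_le] at hd
  rcases lt_or_gt_of_ne hk with h | h
  · have h1 : 4 * n * k ≤ -(4 * n) := by nlinarith
    rw [abs_of_nonpos (by linarith)]
    linarith
  · have h1 : 4 * n ≤ 4 * n * k := by nlinarith
    rw [abs_of_nonneg (by linarith)]
    linarith

theorem far {n : ℕ} {ma mb qa qb : ℤ × ℤ} (ha : IBox n qa) (hb : IBox n qb) (hm : ma ≠ mb) :
    2 * (n : ℝ) ≤ nm (ir (lat n ma qa - lat n mb qb)) := by
  obtain ⟨a1, a2, a3, a4⟩ := ha
  obtain ⟨b1, b2, b3, b4⟩ := hb
  have key : 2 * (n : ℤ) ≤ |(lat n ma qa - lat n mb qb).1| + |(lat n ma qa - lat n mb qb).2| := by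
    by_cases h1 : ma.1 = mb.1
    · have h2 : ma.2 ≠ mb.2 := fun h2 => hm (Prod.ext h1 h2)
      have h3 := far_coord n (ma.2 - mb.2) (qa.2 - qb.2) (by positivity) (sub_ne_zero.mpr h2)
        (by rw [abs_le]; constructor <;> linarith)
      have e : (lat n ma qa - lat n mb qb).2 = 4 * n * (ma.2 - mb.2) + (qa.2 - qb.2) := by
        unfold lat; simp; ring
      rw [e]
      have := abs_nonneg (lat n ma qa - lat n mb qb).1
      linarith
    · have h3 := far_coord n (ma.1 - mb.1) (qa.1 - qb.1) (by positivity) (sub_ne_zero.mpr h1)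
        (by rw [abs_le]; constructor <;> linarith)
      have e : (lat n ma qa - lat n mb qb).1 = 4 * n * (ma.1 - mb.1) + (qa.1 - qb.1) := by
        unfold lat; simp; ring
      rw [e]
      have := abs_nonneg (lat n ma qa - lat n mb qb).2
      linarith
  show 2 * (n : ℝ) ≤ |(((lat n ma qa - lat n mb qb).1 : ℤ) : ℝ)| +
    |(((lat n ma qa - lat n mb qb).2 : ℤ) : ℝ)|
  exact_mod_cast key

theorem ir_sub (a b : ℤ × ℤ) : ir (a - b) = ir a - ir b := by
  unfold ir; ext <;> simp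

theorem pos_sub (n : ℕ) (β γ : ℝ) (ma mb qa qb : ℤ × ℤ) :
    pos n β γ ma qa - pos n β γ mb qb =
      ir (lat n ma qa - lat n mb qb) + (disp β γ (ir qa) - disp β γ (ir qb)) := by
  unfold pos
  rw [ir_sub]
  abel

theorem lat_inj {n : ℕ} (hn : 1 ≤ n) {ma mb qa qb : ℤ × ℤ} (ha : IBox n qa) (hb : IBox n qb)
    (h : lat n ma qa = lat n mb qb) : ma = mb ∧ qa = qb := by
  have hm : ma = mb := by
    by_contra hm
    have h1 := far ha hb hm
    rw [h, sub_self] at h1
    have h2 : nm (ir 0) = 0 := by unfold nm ir; simp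
    rw [h2] at h1
    have : (1 : ℝ) ≤ n := by exact_mod_cast hn
    linarith
  refine ⟨hm, ?_⟩
  subst hm
  unfold lat at h
  have h1 := congrArg Prod.fst h
  have h2 := congrArg Prod.snd h
  simp only at h1 h2
  exact Prod.ext (by linarith) (by linarith)

variable {n : ℕ} {β γ : ℝ}

/-- Lipschitz estimate for all pairs -/
theorem lip (_hn : 1 ≤ n) (P : Par (n : ℝ) β γ) {ma mb qa qb : ℤ × ℤ} (ha : IBox n qa)
    (hb : IBox n qb) :
    nm (disp β γ (ir qa) - disp β γ (ir qb)) ≤ 21 / 10 * β * nm (ir (lat n ma qa - lat n mb qb)) := by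
  by_cases hm : ma = mb
  · subst hm
    have e : lat n ma qa - lat n ma qb = qa - qb := by
      unfold lat; ext <;> simp
    rw [e, ir_sub]
    have e2 : ir qa = ir qb + (ir qa - ir qb) := by abel
    have := P.lip_same (b := ir qb) (u := ir qa - ir qb) hb.box (by rw [← e2]; exact ha.box)
    rwa [← e2] at this
  · exact P.lip_diff ha.box hb.box (far ha hb hm)

theorem smul_ir (i : ℤ) (v : ℤ × ℤ) : ir (i * v.1, i * v.2) = (i : ℝ) • ir v := by
  unfold ir; ext <;> simp

/-- no bad triple when the first two points are in one cell -/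
theorem no_bad_half (hn : 1 ≤ n) (P : Par (n : ℝ) β γ) {τ : ℝ} {m mc qa qb qc : ℤ × ℤ}
    (ha : IBox n qa) (hb : IBox n qb) (hc : IBox n qc) (hτ : 0 < τ) (hτ' : 20 * τ ≤ γ)
    (hab : lat n m qa ≠ lat n m qb) (hcb : lat n mc qc ≠ lat n m qb)
    (hac : lat n m qa ≠ lat n mc qc)
    (hcol : (lat n m qa - lat n m qb).1 * (lat n mc qc - lat n m qb).2 =
      (lat n m qa - lat n m qb).2 * (lat n mc qc - lat n m qb).1)
    (hX : |cr (pos n β γ m qa - pos n β γ m qb) (pos n β γ mc qc - pos n β γ m qb)| ≤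
      τ * (nm (pos n β γ m qa - pos n β γ m qb) + nm (pos n β γ mc qc - pos n β γ m qb))) :
    False := by
  have hN := P.hN
  have hβ := P.bpos
  have hγ := P.gpos
  have hb1 := P.ble
  obtain ⟨v, i, j, hv, hui, hwj⟩ := exists_step (sub_ne_zero.mpr hab) hcol
  have hi : i ≠ 0 := by
    intro h0
    rw [h0] at hui
    simp only [zero_mul] at hui
    exact sub_ne_zero.mpr hab hui
  have hj : j ≠ 0 := by
    intro h0
    rw [h0] at hwj
    simp only [zero_mul] at hwj
    exact sub_ne_zero.mpr hcb hwj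
  have hij : j - i ≠ 0 := by
    intro h0
    have h1 : j = i := by linarith
    rw [h1, ← hui] at hwj
    exact hac (sub_left_injective hwj).symm
  set V := ir v with hV
  have hVn : 1 ≤ nm V := nm_ir_ge hv
  have hVl : 1 ≤ 3 / 2 * nm V * |ell V| := ell_ir hv
  have hi1 : (1 : ℝ) ≤ |(i : ℝ)| := by
    have := Int.one_le_abs hi
    exact_mod_cast this
  have hj1 : (1 : ℝ) ≤ |(j : ℝ)| := by
    have := Int.one_le_abs hj
    exact_mod_cast this
  have hij1 : (1 : ℝ) ≤ |(j : ℝ) - (i : ℝ)| := by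
    have := Int.one_le_abs hij
    exact_mod_cast this
  have hu : ir (lat n m qa - lat n m qb) = (i : ℝ) • V := by rw [hui, smul_ir]
  have hw : ir (lat n mc qc - lat n m qb) = (j : ℝ) • V := by rw [hwj, smul_ir]
  -- sizes
  have lA := lip (ma := m) (mb := m) hn P ha hb
  have lC := lip (ma := mc) (mb := m) hn P hc hb
  have sA : nm (pos n β γ m qa - pos n β γ m qb) ≤ 11 / 10 * (|(i : ℝ)| * nm V) := by
    rw [pos_sub]
    have h1 := nm_add (ir (lat n m qa - lat n m qb)) (disp β γ (ir qa) - disp β γ (ir qb))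
    rw [hu, nm_smul] at h1 lA
    rw [hu]
    have h2 : 0 ≤ |(i : ℝ)| * nm V := mul_nonneg (abs_nonneg _) (nm_nonneg _)
    have h3 := mul_le_mul_of_nonneg_right hb1 h2
    linarith
  have sC : nm (pos n β γ mc qc - pos n β γ m qb) ≤ 11 / 10 * (|(j : ℝ)| * nm V) := by
    rw [pos_sub]
    have h1 := nm_add (ir (lat n mc qc - lat n m qb)) (disp β γ (ir qc) - disp β γ (ir qb))
    rw [hw, nm_smul] at h1 lC
    rw [hw]
    have h2 : 0 ≤ |(j : ℝ)| * nm V := mul_nonneg (abs_nonneg _) (nm_nonneg _)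
    have h3 := mul_le_mul_of_nonneg_right hb1 h2
    linarith
  set X := cr (pos n β γ m qa - pos n β γ m qb) (pos n β γ mc qc - pos n β γ m qb) with hXdef
  have hX2 : |X| ≤ 22 / 10 * τ * (|(i : ℝ)| * |(j : ℝ)| * nm V) := by
    have h1 : τ * (nm (pos n β γ m qa - pos n β γ m qb) + nm (pos n β γ mc qc - pos n β γ m qb)) ≤
        τ * (11 / 10 * (|(i : ℝ)| * nm V) + 11 / 10 * (|(j : ℝ)| * nm V)) :=
      mul_le_mul_of_nonneg_left (add_le_add sA sC) hτ.le
    have h2 : |(i : ℝ)| + |(j : ℝ)| ≤ 2 * (|(i : ℝ)| * |(j : ℝ)|) := by nlinarith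
    have h3 : τ * (11 / 10 * (|(i : ℝ)| * nm V) + 11 / 10 * (|(j : ℝ)| * nm V)) =
        11 / 10 * τ * nm V * (|(i : ℝ)| + |(j : ℝ)|) := by ring
    have h4 := mul_le_mul_of_nonneg_left h2
      (by positivity : 0 ≤ 11 / 10 * τ * nm V)
    have h5 : 11 / 10 * τ * nm V * (2 * (|(i : ℝ)| * |(j : ℝ)|)) =
        22 / 10 * τ * (|(i : ℝ)| * |(j : ℝ)| * nm V) := by ring
    linarith
  have eA : pos n β γ m qa - pos n β γ m qb =
      (i : ℝ) • V + disp β γ (ir qb + (i : ℝ) • V) - disp β γ (ir qb) := by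
    have e1 : ir qb + (i : ℝ) • V = ir qa := by
      rw [← hu]
      have : lat n m qa - lat n m qb = qa - qb := by unfold lat; ext <;> simp
      rw [this, ir_sub]; abel
    rw [pos_sub, hu, e1]; abel
  have bxa : Box (n : ℝ) (ir qb + (i : ℝ) • V) := by
    have e1 : ir qb + (i : ℝ) • V = ir qa := by
      rw [← hu]
      have : lat n m qa - lat n m qb = qa - qb := by unfold lat; ext <;> simp
      rw [this, ir_sub]; abel
    rw [e1]; exact ha.box
  have hpos : 0 < |(i : ℝ)| * |(j : ℝ)| * nm V := by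
    have : 0 < |(i : ℝ)| := by linarith
    have : 0 < |(j : ℝ)| := by linarith
    have : 0 < nm V := by linarith
    positivity
  by_cases hm : mc = m
  · subst hm
    have e1 : ir qb + (j : ℝ) • V = ir qc := by
      rw [← hw]
      have : lat n mc qc - lat n mc qb = qc - qb := by unfold lat; ext <;> simp
      rw [this, ir_sub]; abel
    have eC : pos n β γ mc qc - pos n β γ mc qb =
        (j : ℝ) • V + disp β γ (ir qb + (j : ℝ) • V) - disp β γ (ir qb) := by
      rw [pos_sub, hw, e1]; abel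
    have h1 := P.same hb.box (i : ℝ) (j : ℝ) hVl
    rw [← eA, ← eC, ← hXdef] at h1
    have h2 : |(i : ℝ)| * |(j : ℝ)| * |(j : ℝ) - (i : ℝ)| * (γ * nm V) =
      γ * (|(i : ℝ)| * |(j : ℝ)| * nm V) * |(j : ℝ) - (i : ℝ)| := by ring
    have h3 : γ * (|(i : ℝ)| * |(j : ℝ)| * nm V) * 1 ≤
        γ * (|(i : ℝ)| * |(j : ℝ)| * nm V) * |(j : ℝ) - (i : ℝ)| :=
      mul_le_mul_of_nonneg_left hij1 (by positivity)
    have h4 := mul_le_mul_of_nonneg_right hτ' hpos.le
    have h5 : 0 < τ * (|(i : ℝ)| * |(j : ℝ)| * nm V) := mul_pos hτ hpos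
    linarith
  · set Z : ℝ × ℝ := (4 * (n : ℝ)) • ir (mc - m) with hZ
    have e1 : ir qb + (j : ℝ) • V - Z = ir qc := by
      rw [← hw, hZ]
      unfold lat ir
      ext <;> simp <;> ring
    have eC : pos n β γ mc qc - pos n β γ m qb =
        (j : ℝ) • V + disp β γ (ir qb + (j : ℝ) • V - Z) - disp β γ (ir qb) := by
      rw [pos_sub, hw, e1]; abel
    have hmn : mc - m ≠ 0 := sub_ne_zero.mpr hm
    have nZ : nm Z = 4 * (n : ℝ) * nm (ir (mc - m)) := by
      rw [hZ, nm_smul, abs_of_nonneg (by positivity)]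
    have h1 := P.two (b := ir qb) (v := V) (Z := Z) (i := (i : ℝ)) (j := (j : ℝ)) hb.box bxa
      (by rw [e1]; exact hc.box)
      (by
        rw [nZ]
        have : nm (ir (mc - m)) ≤ dt (ir (mc - m)) (ir (mc - m)) := by
          have hz : |(mc - m).1| + |(mc - m).2| ≤
              (mc - m).1 * (mc - m).1 + (mc - m).2 * (mc - m).2 := by
            have a1 : ∀ t : ℤ, |t| ≤ t * t := by
              intro t
              rcases eq_or_ne t 0 with h | h
              · rw [h]; simp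
              · have h1 := Int.one_le_abs h
                rw [← abs_mul_abs_self t]
                nlinarith
            linarith [a1 (mc - m).1, a1 (mc - m).2]
          show |(((mc - m).1 : ℤ) : ℝ)| + |(((mc - m).2 : ℤ) : ℝ)| ≤
            (((mc - m).1 : ℤ) : ℝ) * (((mc - m).1 : ℤ) : ℝ) +
              (((mc - m).2 : ℤ) : ℝ) * (((mc - m).2 : ℤ) : ℝ)
          exact_mod_cast hz
        have e : dt Z Z = 16 * (n : ℝ) ^ 2 * dt (ir (mc - m)) (ir (mc - m)) := by
          rw [hZ]; unfold dt; simp; ring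
        rw [e]
        have := mul_le_mul_of_nonneg_left this (by positivity : 0 ≤ 16 * (n : ℝ) ^ 2)
        linarith)
      (by
        rw [nZ]
        have := nm_ir_ge hmn
        have h2 := mul_le_mul_of_nonneg_left this (by positivity : 0 ≤ 4 * (n : ℝ))
        linarith)
    rw [← eA, ← eC, ← hXdef, nm_smul] at h1
    have h2 := mul_le_mul_of_nonneg_left hX2 (abs_nonneg (j : ℝ))
    have h3 : |(j : ℝ)| * (22 / 10 * τ * (|(i : ℝ)| * |(j : ℝ)| * nm V)) =
        22 / 10 * τ * (|(i : ℝ)| * (|(j : ℝ)| ^ 2 * nm V)) := by ring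
    have h4 : |(i : ℝ)| * (|(j : ℝ)| ^ 2 * nm V) ≤ |(i : ℝ)| * (|(j : ℝ)| * nm V) ^ 2 := by
      apply mul_le_mul_of_nonneg_left _ (abs_nonneg _)
      rw [mul_pow]
      apply mul_le_mul_of_nonneg_left _ (by positivity)
      nlinarith
    have h5 : |(i : ℝ)| * (β * (|(j : ℝ)| * nm V) ^ 2) = β * (|(i : ℝ)| * (|(j : ℝ)| * nm V) ^ 2) := by
      ring
    set Q := |(i : ℝ)| * (|(j : ℝ)| * nm V) ^ 2 with hQ
    have hQ0 : 0 < Q := by
      have : 0 < |(i : ℝ)| := by linarith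
      have : 0 < |(j : ℝ)| := by linarith
      have : 0 < nm V := by linarith
      positivity
    have h6 : 24 * (|(j : ℝ)| * |X|) ≤ 53 * τ * Q := by
      have h7 := mul_le_mul_of_nonneg_left h4 (by positivity : 0 ≤ 22 / 10 * τ)
      have h8 : 0 < τ * Q := mul_pos hτ hQ0
      nlinarith
    have h9 : 53 * τ < β := by
      have h10 := P.gN
      have h11 : γ ≤ γ * (n : ℝ) := le_mul_of_one_le_right hγ.le hN
      linarith
    have h10 := mul_lt_mul_of_pos_right h9 hQ0
    linarith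

end Pool.Agent.Balls45
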