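import Pool.Agent.Lib.Balls45.Key

set_option autoImplicit false

namespace Pool.Agent.Balls45

open Pool.Agent.Balls (Bad)

variable {n : ℕ} {β γ : ℝ}

theorem size_bounds (P : Par (n : ℝ) β γ) {u d : ℝ × ℝ} (h : nm d ≤ 21 / 10 * β * nm u) :
    9 / 10 * nm u ≤ nm (u + d) ∧ nm (u + d) ≤ 11 / 10 * nm u := by
  have hu := nm_nonneg u
  have h1 := mul_le_mul_of_nonneg_right P.ble hu
  have h2 := nm_add u d
  have h3 := nm_sub (u + d) d
  rw [add_sub_cancel_right] at h3
  constructor <;> linarith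

theorem cr_perturb (P : Par (n : ℝ) β γ) {u w d e : ℝ × ℝ} (hd : nm d ≤ 21 / 10 * β * nm u)
    (he : nm e ≤ 21 / 10 * β * nm w) :
    |cr (u + d) (w + e)| ≥ |cr u w| - 5 * β * (nm u * nm w) := by
  have hu := nm_nonneg u
  have hw := nm_nonneg w
  have hβ := P.bpos
  have hb := P.ble
  have hid : cr (u + d) (w + e) = cr u w + (cr u e + cr d w + cr d e) := by
    unfold cr; simp; ring
  have h1 : |cr u e| ≤ 21 / 10 * β * (nm u * nm w) := by
    calc |cr u e| ≤ nm u * nm e := cr_le u e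
      _ ≤ nm u * (21 / 10 * β * nm w) := mul_le_mul_of_nonneg_left he hu
      _ = _ := by ring
  have h2 : |cr d w| ≤ 21 / 10 * β * (nm u * nm w) := by
    calc |cr d w| ≤ nm d * nm w := cr_le d w
      _ ≤ (21 / 10 * β * nm u) * nm w := mul_le_mul_of_nonneg_right hd hw
      _ = _ := by ring
  have h3 : |cr d e| ≤ 8 / 10 * β * (nm u * nm w) := by
    calc |cr d e| ≤ nm d * nm e := cr_le d e
      _ ≤ (21 / 10 * β * nm u) * (21 / 10 * β * nm w) :=
          mul_le_mul hd he (nm_nonneg _) (by positivity)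
      _ = 441 / 100 * β * (β * (nm u * nm w)) := by ring
      _ ≤ 441 / 100 * (1 / 100) * (β * (nm u * nm w)) := by
          apply mul_le_mul_of_nonneg_right _ (by positivity)
          linarith
      _ ≤ _ := by
          have : 0 ≤ β * (nm u * nm w) := by positivity
          linarith
  rw [hid]
  have h4 := abs_sub_abs_le_abs_sub (cr u w) (-(cr u e + cr d w + cr d e))
  rw [sub_neg_eq_add, abs_neg] at h4
  have h5 := abs_add_le (cr u e + cr d w) (cr d e)
  have h6 := abs_add_le (cr u e) (cr d w)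
  linarith

theorem no_bad (hn : 1 ≤ n) (P : Par (n : ℝ) β γ) {τ K M : ℝ} {ma mb mc qa qb qc : ℤ × ℤ}
    (ha : IBox n qa) (hb : IBox n qb) (hc : IBox n qc) (hτ : 0 < τ) (hτ' : 20 * τ ≤ γ)
    (hK : 2 * K + 4 * τ * M + 4 * τ ^ 2 ≤ (n : ℝ) ^ 2 / 2)
    (hab : lat n ma qa ≠ lat n mb qb) (hcb : lat n mc qc ≠ lat n mb qb)
    (hac : lat n ma qa ≠ lat n mc qc)
    (hE : nm (pos n β γ ma qa - pos n β γ mc qc) ≤ 2 * M) :
    ¬ Bad τ K (pos n β γ ma qa) (pos n β γ mb qb) (pos n β γ mc qc) := by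
  intro h
  have hX := bad_cross hτ.le h
  have hP := bad_prod hτ.le h hE
  have hN := P.hN
  have hβ := P.bpos
  have lA := lip (ma := ma) (mb := mb) hn P ha hb
  have lC := lip (ma := mc) (mb := mb) hn P hc hb
  obtain ⟨a1, a2⟩ := size_bounds P lA
  obtain ⟨c1, c2⟩ := size_bounds P lC
  rw [← pos_sub] at a1 a2 c1 c2
  set u := ir (lat n ma qa - lat n mb qb) with hu
  set w := ir (lat n mc qc - lat n mb qb) with hw
  have u1 : 1 ≤ nm u := nm_ir_ge (sub_ne_zero.mpr hab)
  have w1 : 1 ≤ nm w := nm_ir_ge (sub_ne_zero.mpr hcb)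
  have hprod : nm u * nm w ≤ (n : ℝ) ^ 2 := by
    have h1 : (9 / 10 * nm u) * (9 / 10 * nm w) ≤
        nm (pos n β γ ma qa - pos n β γ mb qb) * nm (pos n β γ mc qc - pos n β γ mb qb) :=
      mul_le_mul a1 c1 (by positivity) (nm_nonneg _)
    have h2 : (9 / 10 * nm u) * (9 / 10 * nm w) = 81 / 100 * (nm u * nm w) := by ring
    have h3 : 0 ≤ (n : ℝ) ^ 2 := by positivity
    linarith
  by_cases hcol : (lat n ma qa - lat n mb qb).1 * (lat n mc qc - lat n mb qb).2 =
      (lat n ma qa - lat n mb qb).2 * (lat n mc qc - lat n mb qb).1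
  · by_cases hm : ma = mb
    · subst hm
      exact no_bad_half hn P ha hb hc hτ hτ' hab hcb hac hcol hX
    · by_cases hm2 : mc = mb
      · subst hm2
        refine no_bad_half hn P hc hb ha hτ hτ' hcb hab hac.symm (by linarith) ?_
        have e : cr (pos n β γ mc qc - pos n β γ mc qb) (pos n β γ ma qa - pos n β γ mc qb) =
            -cr (pos n β γ ma qa - pos n β γ mc qb) (pos n β γ mc qc - pos n β γ mc qb) := by
          unfold cr; ring
        rw [e, abs_neg]
        linarith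
      · have f1 : 2 * (n : ℝ) ≤ nm u := far ha hb hm
        have f2 : 2 * (n : ℝ) ≤ nm w := far hc hb hm2
        have f3 : (2 * (n : ℝ)) * (2 * (n : ℝ)) ≤ nm u * nm w :=
          mul_le_mul f1 f2 (by positivity) (nm_nonneg _)
        nlinarith
  · have hint : (1 : ℝ) ≤ |cr u w| := by
      have h1 : (lat n ma qa - lat n mb qb).1 * (lat n mc qc - lat n mb qb).2 -
        (lat n ma qa - lat n mb qb).2 * (lat n mc qc - lat n mb qb).1 ≠ 0 := sub_ne_zero.mpr hcol
      have h2 := Int.one_le_abs h1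
      have e : cr u w = (((lat n ma qa - lat n mb qb).1 * (lat n mc qc - lat n mb qb).2 -
        (lat n ma qa - lat n mb qb).2 * (lat n mc qc - lat n mb qb).1 : ℤ) : ℝ) := by
        rw [hu, hw]; unfold cr ir; push_cast; ring
      rw [e]
      exact_mod_cast h2
    have h3 := cr_perturb P lA lC
    rw [← pos_sub, ← pos_sub] at h3
    have h4 : β * (nm u * nm w) ≤ 1 / 100 := by
      have := mul_le_mul_of_nonneg_left hprod hβ.le
      rw [P.bN] at this
      exact this
    have h5 : τ * (nm (pos n β γ ma qa - pos n β γ mb qb) + nm (pos n β γ mc qc - pos n β γ mb qb)) ≤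
        τ * (11 / 10 * nm u + 11 / 10 * nm w) :=
      mul_le_mul_of_nonneg_left (add_le_add a2 c2) hτ.le
    have h6 : nm u + nm w ≤ 2 * (nm u * nm w) := by nlinarith
    have h7 : τ * (11 / 10 * nm u + 11 / 10 * nm w) ≤ 22 / 10 * (τ * (nm u * nm w)) := by
      have := mul_le_mul_of_nonneg_left h6 hτ.le
      linarith
    have h8 : τ ≤ β := by
      have h10 := P.gN
      have h11 : γ ≤ γ * (n : ℝ) := le_mul_of_one_le_right P.gpos.le hN
      linarith
    have h9 : τ * (nm u * nm w) ≤ β * (nm u * nm w) :=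
      mul_le_mul_of_nonneg_right h8 (by positivity)
    linarith

end Pool.Agent.Balls45
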