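import Pool.Agent.Lib.Balls45.Main

set_option autoImplicit false

namespace Pool.Agent.Balls45

open Pool.Agent.Balls (Bad)

/-- indices: a cell `(a, b)` and a core vector `(c, d)` -/
abbrev Idx (n t : ℕ) : Type := (Fin t × Fin t) × (Fin (2 * n) × Fin (2 * n))

theorem card_idx (n t : ℕ) : Fintype.card (Idx n t) = t ^ 2 * (2 * n) ^ 2 := by
  simp [Idx]; ring

def mz {n t : ℕ} (x : Idx n t) : ℤ × ℤ := ((x.1.1 : ℤ), (x.1.2 : ℤ))

def qz {n t : ℕ} (x : Idx n t) : ℤ × ℤ := (((x.2.1 : ℕ) : ℤ) - n, ((x.2.2 : ℕ) : ℤ) - n)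

theorem qz_box {n t : ℕ} (x : Idx n t) : IBox n (qz x) := by
  have h1 := x.2.1.isLt
  have h2 := x.2.2.isLt
  unfold IBox qz
  refine ⟨?_, ?_, ?_, ?_⟩ <;> simp only <;> omega

theorem mq_inj {n t : ℕ} {x y : Idx n t} (h1 : mz x = mz y) (h2 : qz x = qz y) : x = y := by
  unfold mz at h1
  unfold qz at h2
  have a1 := congrArg Prod.fst h1
  have a2 := congrArg Prod.snd h1
  have a3 := congrArg Prod.fst h2
  have a4 := congrArg Prod.snd h2
  simp only at a1 a2 a3 a4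
  obtain ⟨⟨x1, x2⟩, ⟨x3, x4⟩⟩ := x
  obtain ⟨⟨y1, y2⟩, ⟨y3, y4⟩⟩ := y
  simp only at a1 a2 a3 a4
  have e1 : x1 = y1 := Fin.ext (by omega)
  have e2 : x2 = y2 := Fin.ext (by omega)
  have e3 : x3 = y3 := Fin.ext (by omega)
  have e4 : x4 = y4 := Fin.ext (by omega)
  rw [e1, e2, e3, e4]

theorem lat_ne {n t : ℕ} (hn : 1 ≤ n) {x y : Idx n t} (h : x ≠ y) :
    lat n (mz x) (qz x) ≠ lat n (mz y) (qz y) := by
  intro h1
  obtain ⟨h2, h3⟩ := lat_inj hn (qz_box x) (qz_box y) h1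
  exact h (mq_inj h2 h3)

/-- position of an index -/
noncomputable def place {n t : ℕ} (β γ : ℝ) (x : Idx n t) : ℝ × ℝ := pos n β γ (mz x) (qz x)

theorem place_bounds {n t : ℕ} {β γ : ℝ} (P : Par (n : ℝ) β γ) (x : Idx n t) :
    0 ≤ (place β γ x).1 ∧ (place β γ x).1 ≤ 4 * n * t ∧ 0 ≤ (place β γ x).2 ∧
      (place β γ x).2 ≤ 4 * n * t := by
  have hd := par_disp P (qz_box x).box
  have hN := P.hN
  have hb := P.ble
  have hb0 := P.bpos
  have hd' : nm (disp β γ (ir (qz x))) ≤ n := by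
    have : β * n ≤ 1 / 100 * n := mul_le_mul_of_nonneg_right hb (by linarith)
    linarith
  unfold nm at hd'
  have hx := (abs_le.mp ((le_add_of_nonneg_right (abs_nonneg _)).trans hd'))
  have hy := (abs_le.mp ((le_add_of_nonneg_left (abs_nonneg _)).trans hd'))
  have e1 : (place β γ x).1 = (((lat n (mz x) (qz x)).1 : ℤ) : ℝ) + (disp β γ (ir (qz x))).1 := rfl
  have e2 : (place β γ x).2 = (((lat n (mz x) (qz x)).2 : ℤ) : ℝ) + (disp β γ (ir (qz x))).2 := rfl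
  obtain ⟨b1, b2, b3, b4⟩ := qz_box x
  have i1 := x.1.1.isLt
  have i2 := x.1.2.isLt
  have m1 : (0 : ℤ) ≤ (mz x).1 ∧ (mz x).1 + 1 ≤ t := by
    unfold mz; constructor <;> simp only <;> omega
  have m2 : (0 : ℤ) ≤ (mz x).2 ∧ (mz x).2 + 1 ≤ t := by
    unfold mz; constructor <;> simp only <;> omega
  have hnz : (0 : ℤ) ≤ n := by positivity
  have l1 : (n : ℤ) ≤ (lat n (mz x) (qz x)).1 ∧ (lat n (mz x) (qz x)).1 + n ≤ 4 * n * t := by
    unfold lat
    simp only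
    constructor
    · have := mul_nonneg hnz m1.1; linarith
    · have := mul_le_mul_of_nonneg_left m1.2 hnz; linarith
  have l2 : (n : ℤ) ≤ (lat n (mz x) (qz x)).2 ∧ (lat n (mz x) (qz x)).2 + n ≤ 4 * n * t := by
    unfold lat
    simp only
    constructor
    · have := mul_nonneg hnz m2.1; linarith
    · have := mul_le_mul_of_nonneg_left m2.2 hnz; linarith
  have c1 : (n : ℝ) ≤ (((lat n (mz x) (qz x)).1 : ℤ) : ℝ) := by exact_mod_cast l1.1
  have c2 : (((lat n (mz x) (qz x)).1 : ℤ) : ℝ) + n ≤ 4 * n * t := by exact_mod_cast l1.2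
  have c3 : (n : ℝ) ≤ (((lat n (mz x) (qz x)).2 : ℤ) : ℝ) := by exact_mod_cast l2.1
  have c4 : (((lat n (mz x) (qz x)).2 : ℤ) : ℝ) + n ≤ 4 * n * t := by exact_mod_cast l2.2
  rw [e1, e2]
  refine ⟨?_, ?_, ?_, ?_⟩
  · linarith [hx.1]
  · linarith [hx.2]
  · linarith [hy.1]
  · linarith [hy.2]

theorem place_not_bad {n t : ℕ} {β γ : ℝ} (hn : 1 ≤ n) (P : Par (n : ℝ) β γ) {τ K M : ℝ}
    (hM : M = 4 * n * t) (hτ : 0 < τ) (hτ' : 20 * τ ≤ γ)
    (hK : 2 * K + 4 * τ * M + 4 * τ ^ 2 ≤ (n : ℝ) ^ 2 / 2) {x y z : Idx n t}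
    (hxy : x ≠ y) (hyz : y ≠ z) (hxz : x ≠ z) :
    ¬ Bad τ K (place β γ x) (place β γ y) (place β γ z) := by
  obtain ⟨x1, x2, x3, x4⟩ := place_bounds P x
  obtain ⟨z1, z2, z3, z4⟩ := place_bounds P z
  refine no_bad hn P (qz_box x) (qz_box y) (qz_box z) hτ hτ' hK (lat_ne hn hxy) (lat_ne hn hyz.symm)
    (lat_ne hn hxz) ?_
  have h1 : |(place β γ x - place β γ z).1| ≤ M := by
    rw [Prod.fst_sub, abs_le]; constructor <;> linarith
  have h2 : |(place β γ x - place β γ z).2| ≤ M := by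
    rw [Prod.snd_sub, abs_le]; constructor <;> linarith
  have h3 : nm (place β γ x - place β γ z) ≤ 2 * M := by unfold nm; linarith
  exact h3

end Pool.Agent.Balls45
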