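import Pool.Agent.Lib.Balls45.Ineq

set_option autoImplicit false

namespace Pool.Agent.Balls45

variable {N β γ : ℝ}

theorem dt_sub_right (a b c : ℝ × ℝ) : dt (a + b - c) c = dt a c + dt b c - dt c c := by
  unfold dt; simp; ring

/-- lower bound, two cells; `Z` is the difference of the two centres -/
theorem Par.two (P : Par N β γ) {b v Z : ℝ × ℝ} {i j : ℝ} (hb : Box N b) (ha : Box N (b + i • v))
    (hc : Box N (b + j • v - Z)) (hZ : 4 * N * nm Z ≤ dt Z Z) (hZN : 4 * N ≤ nm Z) :
    |i| * (β * nm (j • v) ^ 2) ≤ 24 * (|j| * |cr (i • v + disp β γ (b + i • v) - disp β γ b)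
      (j • v + disp β γ (b + j • v - Z) - disp β γ b)|) := by
  have hβ := P.bpos
  have hγ := P.gpos
  have hb1 := P.ble
  have hN := P.hN
  set w := j • v with hw
  set z := dt Z Z with hz
  have hb' := box_nm hb
  have hc' := box_nm hc
  have nZ0 := nm_nonneg Z
  have nw0 := nm_nonneg w
  have nb0 := nm_nonneg b
  have hw1 : nm w ≤ 2 * nm Z := by
    have h1 : w = Z + ((b + w - Z) - b) := by
      ext <;> simp <;> ring
    have h2 := nm_add Z ((b + w - Z) - b)
    have h3 := nm_sub (b + w - Z) b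
    rw [← h1] at h2
    linarith
  have hzZ : nm Z ^ 2 ≤ 2 * z := dt_self_ge Z
  have hw2 : nm w ^ 2 ≤ 8 * z := by
    have h1 : nm w ^ 2 ≤ (2 * nm Z) ^ 2 := pow_le_pow_left₀ nw0 hw1 2
    have h2 : (2 * nm Z) ^ 2 = 4 * nm Z ^ 2 := by ring
    linarith
  have hbZ : nm b ≤ 1 / 2 * nm Z := by linarith
  have hz0 : 0 ≤ z := by
    have := sq_nonneg (nm Z)
    linarith
  -- main term
  have hmain : 1 / 2 * z ≤ dt w Z := by
    have e : dt w Z = z + dt ((b + w - Z) - b) Z := by
      rw [hz]
      unfold dt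
      simp
      ring
    -- coordinate bound of the difference
    have h2 : |dt ((b + w - Z) - b) Z| ≤ 2 * N * nm Z := by
      have hx : |((b + w - Z) - b).1| ≤ 2 * N := by
        have := abs_sub (b + w - Z).1 b.1
        rw [Prod.fst_sub]
        linarith [hc.1, hb.1]
      have hy : |((b + w - Z) - b).2| ≤ 2 * N := by
        have := abs_sub (b + w - Z).2 b.2
        rw [Prod.snd_sub]
        linarith [hc.2, hb.2]
      unfold dt nm
      have h3 := abs_add_le (((b + w - Z) - b).1 * Z.1) (((b + w - Z) - b).2 * Z.2)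
      rw [abs_mul, abs_mul] at h3
      have h4 := mul_le_mul_of_nonneg_right hx (abs_nonneg Z.1)
      have h5 := mul_le_mul_of_nonneg_right hy (abs_nonneg Z.2)
      linarith
    have h3 := (abs_le.mp h2).1
    rw [e]
    linarith
  set μa := β + γ * ell (b + i • v) with hμa
  set μb := β + γ * ell b with hμb
  set μc := β + γ * ell (b + w - Z) with hμc
  have ga := P.gell ha
  have gb := P.gell hb
  have gc := P.gell hc
  have dca : |μc - μa| ≤ β / 200 := by
    have h := abs_sub (γ * ell (b + w - Z)) (γ * ell (b + i • v))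
    have e : μc - μa = γ * ell (b + w - Z) - γ * ell (b + i • v) := by rw [hμc, hμa]; ring
    rw [e]; linarith
  have dcb : |μc - μb| ≤ β / 200 := by
    have h := abs_sub (γ * ell (b + w - Z)) (γ * ell b)
    have e : μc - μb = γ * ell (b + w - Z) - γ * ell b := by rw [hμc, hμb]; ring
    rw [e]; linarith
  have ma : |μa| ≤ 401 / 400 * β := P.mu ha
  have mc : |μc| ≤ 401 / 400 * β := P.mu hc
  have mc' : 399 / 400 * β ≤ μc := by
    have := (abs_le.mp gc).1
    rw [hμc]; linarith
  have hg : |γ * ell w| ≤ γ * (3 / 2 * nm w) := P.gw w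
  have hgN := P.gN
  have bz : 0 ≤ β * z := mul_nonneg hβ.le hz0
  have bbz : β * (β * z) ≤ 1 / 100 * (β * z) := mul_le_mul_of_nonneg_right hb1 bz
  have bbz0 : 0 ≤ β * (β * z) := mul_nonneg hβ.le bz
  have dww : |dt w w| ≤ 8 * z := by
    have h1 := dt_le w w
    have h2 : nm w * nm w = nm w ^ 2 := by ring
    linarith
  have wb : nm w * nm b ≤ 2 * z := by
    calc nm w * nm b ≤ (2 * nm Z) * (1 / 2 * nm Z) := mul_le_mul hw1 hbZ nb0 (by positivity)
      _ = nm Z ^ 2 := by ring
      _ ≤ _ := hzZ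
  have wZ : nm w * nm Z ≤ 4 * z := by
    calc nm w * nm Z ≤ (2 * nm Z) * nm Z := mul_le_mul_of_nonneg_right hw1 nZ0
      _ = 2 * nm Z ^ 2 := by ring
      _ ≤ _ := by linarith
  have T1 : |(μc - μa) * dt w w| ≤ (β / 200) * (8 * z) := am dca dww
  have T2 : 399 / 400 * β * (1 / 2 * z) ≤ μc * dt w Z :=
    mul_le_mul mc' hmain (by positivity) (by linarith)
  have T3 : |(μc - μb) * dt w b| ≤ (β / 200) * (2 * z) := am dcb ((dt_le w b).trans wb)
  have T4 : |μa * μc * cr w Z| ≤ (401 / 400 * β) * (401 / 400 * β) * (4 * z) :=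
    am (am ma mc) ((cr_le w Z).trans wZ)
  have T5 : |μa * (μc - μb) * cr w b| ≤ (401 / 400 * β) * (β / 200) * (2 * z) :=
    am (am ma dcb) ((cr_le w b).trans wb)
  have hbw : nm b * nm w ≤ 2 * N * nm w := mul_le_mul_of_nonneg_right hb' nw0
  have q6 : γ * (3 / 2 * nm w) * (nm b * nm w) ≤ 24 / 1000 * (β * z) := by
    calc γ * (3 / 2 * nm w) * (nm b * nm w) ≤ γ * (3 / 2 * nm w) * (2 * N * nm w) :=
          mul_le_mul_of_nonneg_left hbw (by positivity)
      _ = 3 * (γ * N) * nm w ^ 2 := by ring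
      _ ≤ 3 * (γ * N) * (8 * z) := mul_le_mul_of_nonneg_left hw2 (by positivity)
      _ = _ := by rw [hgN]; ring
  have q8 : γ * (3 / 2 * nm w) * (nm b * nm Z) ≤ 12 / 1000 * (β * z) := by
    calc γ * (3 / 2 * nm w) * (nm b * nm Z) ≤ γ * (3 / 2 * nm w) * (2 * N * nm Z) :=
          mul_le_mul_of_nonneg_left (mul_le_mul_of_nonneg_right hb' nZ0) (by positivity)
      _ = 3 * (γ * N) * (nm w * nm Z) := by ring
      _ ≤ 3 * (γ * N) * (4 * z) := mul_le_mul_of_nonneg_left wZ (by positivity)
      _ = _ := by rw [hgN]; ring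
  have T6 : |γ * ell w * dt b w| ≤ 24 / 1000 * (β * z) := (am hg (dt_le b w)).trans q6
  have T7 : |γ * ell w * μc * cr b w| ≤ 24 / 1000 * (β * z) * (401 / 400 * β) := by
    have e : γ * ell w * μc * cr b w = γ * ell w * cr b w * μc := by ring
    rw [e]
    exact am ((am hg (cr_le b w)).trans q6) mc
  have T8 : |γ * ell w * μc * cr b Z| ≤ 12 / 1000 * (β * z) * (401 / 400 * β) := by
    have e : γ * ell w * μc * cr b Z = γ * ell w * cr b Z * μc := by ring
    rw [e]
    exact am ((am hg (cr_le b Z)).trans q8) mc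
  have hid := cross_two β γ i j μa μb μc b v Z rfl rfl
  rw [← hw] at hid
  have hid2 : j * cr (i • v + disp β γ (b + i • v) - disp β γ b)
      (w + disp β γ (b + w - Z) - disp β γ b) = _ := hid
  have habs := congrArg abs hid2
  rw [abs_mul, abs_mul] at habs
  rw [habs]
  have hS : 1 / 3 * (β * z) ≤ |(μc - μa) * dt w w - μc * dt w Z + (μc - μb) * dt w b
        - μa * μc * cr w Z + μa * (μc - μb) * cr w b
        - γ * ell w * dt b w + γ * ell w * μc * cr b w
        - γ * ell w * μc * cr b Z| := by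
    rw [abs_le] at T1 T3 T4 T5 T6 T7 T8
    have h1 := neg_le_abs ((μc - μa) * dt w w - μc * dt w Z + (μc - μb) * dt w b
        - μa * μc * cr w Z + μa * (μc - μb) * cr w b
        - γ * ell w * dt b w + γ * ell w * μc * cr b w
        - γ * ell w * μc * cr b Z)
    have a1 : (401 / 400 * β) * (401 / 400 * β) * (4 * z) ≤ 41 / 1000 * (β * z) := by
      have e : (401 / 400 * β) * (401 / 400 * β) * (4 * z) = 160801 / 40000 * (β * (β * z)) := by ring
      rw [e]; linarith
    have a2 : (401 / 400 * β) * (β / 200) * (2 * z) ≤ 1 / 1000 * (β * z) := by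
      have e : (401 / 400 * β) * (β / 200) * (2 * z) = 401 / 40000 * (β * (β * z)) := by ring
      rw [e]; linarith
    have a3 : 24 / 1000 * (β * z) * (401 / 400 * β) ≤ 1 / 1000 * (β * z) := by
      have e : 24 / 1000 * (β * z) * (401 / 400 * β) = 9624 / 400000 * (β * (β * z)) := by ring
      rw [e]; linarith
    have a4 : 12 / 1000 * (β * z) * (401 / 400 * β) ≤ 1 / 1000 * (β * z) := by
      have e : 12 / 1000 * (β * z) * (401 / 400 * β) = 4812 / 400000 * (β * (β * z)) := by ring
      rw [e]; linarith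
    linarith [T1.2, T3.2, T4.1, T5.2, T6.1, T7.2, T8.1]
  have h9 : |i| * (β * nm w ^ 2) ≤ |i| * (8 * (β * z)) := by
    apply mul_le_mul_of_nonneg_left _ (abs_nonneg i)
    have h1 := mul_le_mul_of_nonneg_left hw2 hβ.le
    have h2 : β * (8 * z) = 8 * (β * z) := by ring
    linarith
  have h10 := mul_le_mul_of_nonneg_left hS (abs_nonneg i)
  linarith

end Pool.Agent.Balls45
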