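import Mathlib

set_option autoImplicit false

namespace Pool.Agent.Balls45

/-- sum norm of a plane vector -/
def nm (v : ℝ × ℝ) : ℝ := |v.1| + |v.2|
/-- cross product -/
def cr (u v : ℝ × ℝ) : ℝ := u.1 * v.2 - u.2 * v.1
/-- dot product -/
def dt (u v : ℝ × ℝ) : ℝ := u.1 * v.1 + u.2 * v.2
/-- rotation by a right angle -/
def J (v : ℝ × ℝ) : ℝ × ℝ := (-v.2, v.1)
/-- the linear form `x - sqrt 2 y` -/
noncomputable def ell (v : ℝ × ℝ) : ℝ := v.1 - √2 * v.2

theorem nm_nonneg (v : ℝ × ℝ) : 0 ≤ nm v := add_nonneg (abs_nonneg _) (abs_nonneg _)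

theorem nm_add (u v : ℝ × ℝ) : nm (u + v) ≤ nm u + nm v := by
  unfold nm
  have h1 := abs_add_le u.1 v.1
  have h2 := abs_add_le u.2 v.2
  simp only [Prod.fst_add, Prod.snd_add]
  linarith

theorem nm_sub (u v : ℝ × ℝ) : nm (u - v) ≤ nm u + nm v := by
  unfold nm
  have h1 := abs_sub u.1 v.1
  have h2 := abs_sub u.2 v.2
  simp only [Prod.fst_sub, Prod.snd_sub]
  linarith

theorem nm_smul (c : ℝ) (v : ℝ × ℝ) : nm (c • v) = |c| * nm v := by
  unfold nm
  simp only [Prod.smul_fst, Prod.smul_snd, smul_eq_mul, abs_mul]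
  ring

theorem nm_J (v : ℝ × ℝ) : nm (J v) = nm v := by
  unfold nm J
  simp only [abs_neg]
  ring

theorem nm_sub_comm (u v : ℝ × ℝ) : nm (u - v) = nm (v - u) := by
  unfold nm
  simp only [Prod.fst_sub, Prod.snd_sub, abs_sub_comm]

theorem cr_le (u v : ℝ × ℝ) : |cr u v| ≤ nm u * nm v := by
  unfold cr nm
  have h := abs_sub (u.1 * v.2) (u.2 * v.1)
  rw [abs_mul, abs_mul] at h
  have a1 := abs_nonneg u.1
  have a2 := abs_nonneg u.2
  have b1 := abs_nonneg v.1
  have b2 := abs_nonneg v.2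
  nlinarith [mul_nonneg a1 b1, mul_nonneg a2 b2]

theorem dt_le (u v : ℝ × ℝ) : |dt u v| ≤ nm u * nm v := by
  unfold dt nm
  have h := abs_add_le (u.1 * v.1) (u.2 * v.2)
  rw [abs_mul, abs_mul] at h
  have a1 := abs_nonneg u.1
  have a2 := abs_nonneg u.2
  have b1 := abs_nonneg v.1
  have b2 := abs_nonneg v.2
  nlinarith [mul_nonneg a1 b2, mul_nonneg a2 b1]

theorem sqrt2_le : √2 ≤ 3 / 2 := by
  rw [Real.sqrt_le_left (by norm_num)]; norm_num

theorem ell_le (v : ℝ × ℝ) : |ell v| ≤ 3 / 2 * nm v := by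
  unfold ell nm
  have h := abs_sub v.1 (√2 * v.2)
  rw [abs_mul, abs_of_nonneg (Real.sqrt_nonneg 2)] at h
  have a1 := abs_nonneg v.1
  have a2 := abs_nonneg v.2
  have h2 := mul_le_mul_of_nonneg_right sqrt2_le a2
  linarith

theorem dt_self_ge (v : ℝ × ℝ) : nm v ^ 2 ≤ 2 * dt v v := by
  unfold dt nm
  nlinarith [sq_nonneg (|v.1| - |v.2|), sq_abs v.1, sq_abs v.2]

theorem dt_self_le (v : ℝ × ℝ) : dt v v ≤ nm v ^ 2 := by
  unfold dt nm
  nlinarith [mul_nonneg (abs_nonneg v.1) (abs_nonneg v.2), sq_abs v.1, sq_abs v.2]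

/-- the displaced point -/
noncomputable def disp (β γ : ℝ) (q : ℝ × ℝ) : ℝ × ℝ := (β + γ * ell q) • J q

/-- difference of positions in one cell -/
theorem disp_diff (β γ : ℝ) (b u : ℝ × ℝ) :
    u + disp β γ (b + u) - disp β γ b = u + (β + γ * ell (b + u)) • J u + (γ * ell u) • J b := by
  unfold disp J ell
  ext <;> simp <;> ring

/-- the cross product of a collinear triple in one cell -/
theorem cross_same (β γ i j : ℝ) (b v : ℝ × ℝ) :
    cr (i • v + disp β γ (b + i • v) - disp β γ b) (j • v + disp β γ (b + j • v) - disp β γ b) =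
      i * j * (j - i) * (γ * ell v) * (dt v v + γ * ell v * cr b v) := by
  unfold disp J ell cr dt
  simp
  ring

/-- the cross product of a collinear triple in two cells (centre difference `Z`) -/
theorem cross_two (β γ i j μa μb μc : ℝ) (b v Z : ℝ × ℝ)
    (ha : μa = β + γ * ell (b + i • v)) (hb : μb = β + γ * ell b) :
    j * cr (i • v + disp β γ (b + i • v) - disp β γ b)
      (j • v + μc • J (b + j • v - Z) - disp β γ b) =
      i * ((μc - μa) * dt (j • v) (j • v) - μc * dt (j • v) Z + (μc - μb) * dt (j • v) b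
        - μa * μc * cr (j • v) Z + μa * (μc - μb) * cr (j • v) b
        - γ * ell (j • v) * dt b (j • v) + γ * ell (j • v) * μc * cr b (j • v)
        - γ * ell (j • v) * μc * cr b Z) := by
  subst ha hb
  unfold disp J ell cr dt
  simp
  ring

end Pool.Agent.Balls45
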